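import Mathlib
import Pool.Agent.Helper40.Nil.Stmts

/-!
Project Nil, module EXT: extreme points of the set of normalized positive definite functions have
scalar commutant.
-/

namespace Pool.Agent.Helper40.Nil

open Filter Topology
open scoped ComplexConjugate InnerProductSpace

universe u

section ext

variable {V : Type u} [Group V] {E : Type u} [NormedAddCommGroup E] [InnerProductSpace ℂ E]
  [CompleteSpace E]

theorem ext_mul (π : V →* (E ≃ₗᵢ[ℂ] E)) (x y : V) (v : E) : π (x * y) v = π x (π y v) := by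
  rw [map_mul]; rfl

omit [CompleteSpace E] in
theorem ext_sq (v : E) : ⟪v, v⟫_ℂ = ((‖v‖ ^ 2 : ℝ) : ℂ) := by
  have := inner_self_eq_norm_sq_to_K (𝕜 := ℂ) v
  rw [this]; norm_cast

theorem ext_inner (π : V →* (E ≃ₗᵢ[ℂ] E)) (x : V) (v w : E) :
    ⟪v, π x⁻¹ w⟫_ℂ = ⟪π x v, w⟫_ℂ := by
  rw [← (π x).inner_map_map v (π x⁻¹ w), ← ext_mul, mul_inv_cancel, map_one]
  rfl

theorem ext_pd (π : V →* (E ≃ₗᵢ[ℂ] E)) (ζ : E) (S : E →L[ℂ] E)
    (hc : ∀ x v, S (π x v) = π x (S v)) (hp : ∀ v, 0 ≤ (⟪v, S v⟫_ℂ).re)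
    (hi : ∀ v, (⟪v, S v⟫_ℂ).im = 0) : IsPD (fun x => ⟪ζ, S (π x ζ)⟫_ℂ) := by
  intro s c
  have key : (∑ x ∈ s, ∑ y ∈ s, conj (c x) * c y * ⟪ζ, S (π (x⁻¹ * y) ζ)⟫_ℂ) =
      ⟪∑ x ∈ s, c x • π x ζ, S (∑ y ∈ s, c y • π y ζ)⟫_ℂ := by
    rw [map_sum, sum_inner]
    refine Finset.sum_congr rfl fun x _ => ?_
    rw [inner_sum]
    refine Finset.sum_congr rfl fun y _ => ?_
    rw [map_smul, inner_smul_left, inner_smul_right, ext_mul, hc, ext_inner, mul_assoc]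
  have hk : (∑ x ∈ s, ∑ y ∈ s, conj (c x) * c y * (fun x => ⟪ζ, S (π x ζ)⟫_ℂ) (x⁻¹ * y)) =
      ⟪∑ x ∈ s, c x • π x ζ, S (∑ y ∈ s, c y • π y ζ)⟫_ℂ := key
  rw [hk]
  exact ⟨hp _, hi _⟩

theorem ext_smul_pd (ψ : V → ℂ) (h : IsPD ψ) (r : ℝ) (hr : 0 ≤ r) :
    IsPD (fun x => (r : ℂ) * ψ x) := by
  intro s c
  obtain ⟨h1, h2⟩ := h s c
  have key : (∑ x ∈ s, ∑ y ∈ s, conj (c x) * c y * ((r : ℂ) * ψ (x⁻¹ * y))) =
      (r : ℂ) * ∑ x ∈ s, ∑ y ∈ s, conj (c x) * c y * ψ (x⁻¹ * y) := by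
    rw [Finset.mul_sum]
    refine Finset.sum_congr rfl fun x _ => ?_
    rw [Finset.mul_sum]
    refine Finset.sum_congr rfl fun y _ => ?_
    ring
  have hk : (∑ x ∈ s, ∑ y ∈ s, conj (c x) * c y * (fun x => (r : ℂ) * ψ x) (x⁻¹ * y)) =
      (r : ℂ) * ∑ x ∈ s, ∑ y ∈ s, conj (c x) * c y * ψ (x⁻¹ * y) := key
  rw [hk]
  constructor
  · rw [Complex.re_ofReal_mul]; exact mul_nonneg hr h1
  · rw [Complex.im_ofReal_mul, h2, mul_zero]

/-- a vector orthogonal to the orbit of the cyclic vector vanishes -/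
theorem ext_zero (φ : V → ℂ) (π : V →* (E ≃ₗᵢ[ℂ] E)) (ζ : E) (hg : IsGNS φ π ζ) (w : E)
    (h : ∀ y, ⟪π y ζ, w⟫_ℂ = 0) : w = 0 := by
  have h1 : ∀ v ∈ (Submodule.span ℂ (Set.range fun x => π x ζ) : Submodule ℂ E),
      ⟪v, w⟫_ℂ = 0 := by
    intro v hv
    induction hv using Submodule.span_induction with
    | mem x hx => obtain ⟨y, rfl⟩ := hx; exact h y
    | zero => exact inner_zero_left _
    | add x y _ _ hx hy => rw [inner_add_left, hx, hy, add_zero]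
    | smul a x _ hx => rw [inner_smul_left, hx, mul_zero]
  have h2 : closure ((Submodule.span ℂ (Set.range fun x => π x ζ) : Submodule ℂ E) : Set E) ⊆
      {v : E | ⟪v, w⟫_ℂ = 0} := by
    refine closure_minimal (fun v hv => h1 v hv) ?_
    exact isClosed_eq (Continuous.inner continuous_id continuous_const) continuous_const
  have h3 : ⟪w, w⟫_ℂ = 0 := h2 (hg.cyc w)
  exact inner_self_eq_zero.mp h3

/-- continuous linear maps agreeing on the orbit of the cyclic vector are equal -/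
theorem ext_eq (φ : V → ℂ) (π : V →* (E ≃ₗᵢ[ℂ] E)) (ζ : E) (hg : IsGNS φ π ζ)
    (S : E →L[ℂ] E) (c : ℂ) (h : ∀ y, S (π y ζ) = c • π y ζ) (v : E) : S v = c • v := by
  have h1 : ∀ v ∈ (Submodule.span ℂ (Set.range fun x => π x ζ) : Submodule ℂ E),
      S v = c • v := by
    intro v hv
    induction hv using Submodule.span_induction with
    | mem x hx => obtain ⟨y, rfl⟩ := hx; exact h y
    | zero => rw [map_zero, smul_zero]
    | add x y _ _ hx hy => rw [map_add, hx, hy, smul_add]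
    | smul a x _ hx => rw [map_smul, hx, smul_comm]
  have h2 : closure ((Submodule.span ℂ (Set.range fun x => π x ζ) : Submodule ℂ E) : Set E) ⊆
      {v : E | S v = c • v} := by
    refine closure_minimal (fun v hv => h1 v hv) ?_
    exact isClosed_eq S.continuous (continuous_const_smul c)
  exact h2 (hg.cyc v)

/-- the main case -/
theorem ext_main (φ : V → ℂ) (hφ : φ ∈ (KK V).extremePoints ℝ) (π : V →* (E ≃ₗᵢ[ℂ] E)) (ζ : E)
    (hg : IsGNS φ π ζ) (T : E →L[ℂ] E) (hc : ∀ x v, T (π x v) = π x (T v))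
    (h0 : ∀ v, 1 / 4 * ‖v‖ ^ 2 ≤ (⟪v, T v⟫_ℂ).re) (h1 : ∀ v, (⟪v, T v⟫_ℂ).re ≤ 3 / 4 * ‖v‖ ^ 2)
    (hi : ∀ v, (⟪v, T v⟫_ℂ).im = 0) : ∃ c : ℂ, ∀ v, T v = c • v := by
  have hK : φ ∈ KK V := extremePoints_subset hφ
  have hζ : ⟪ζ, ζ⟫_ℂ = 1 := by
    have := hg.coef 1
    rw [hK.2, map_one] at this
    exact this.symm
  have hζn : ‖ζ‖ ^ 2 = 1 := by
    have := ext_sq ζ
    rw [hζ] at this
    exact (Complex.ofReal_eq_one.mp this.symm)
  set t : ℝ := (⟪ζ, T ζ⟫_ℂ).re with ht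
  have ht0 : 1 / 4 ≤ t := by have := h0 ζ; rw [hζn] at this; linarith
  have ht1 : t ≤ 3 / 4 := by have := h1 ζ; rw [hζn] at this; linarith
  have htc : ⟪ζ, T ζ⟫_ℂ = (t : ℂ) := by
    apply Complex.ext
    · rw [Complex.ofReal_re]
    · rw [Complex.ofReal_im]; exact hi ζ
  let S : E →L[ℂ] E := ContinuousLinearMap.id ℂ E - T
  have hS : ∀ v, S v = v - T v := fun v => rfl
  have hSc : ∀ x v, S (π x v) = π x (S v) := by
    intro x v
    rw [hS, hS, hc, map_sub]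
  have hSi : ∀ v, ⟪v, S v⟫_ℂ = ((‖v‖ ^ 2 : ℝ) : ℂ) - ⟪v, T v⟫_ℂ := by
    intro v; rw [hS, inner_sub_right, ext_sq]
  have p1 := ext_pd π ζ T hc (fun v => le_trans (by positivity) (h0 v)) hi
  have p2 := ext_pd π ζ S hSc
    (fun v => by
      rw [hSi, Complex.sub_re, Complex.ofReal_re]
      have := h1 v
      nlinarith [sq_nonneg ‖v‖])
    (fun v => by rw [hSi, Complex.sub_im, Complex.ofReal_im, hi, sub_zero])
  have q1 := ext_smul_pd _ p1 (1 / t) (by positivity)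
  have q2 := ext_smul_pd _ p2 (1 / (1 - t)) (one_div_nonneg.mpr (by linarith))
  have tne : (t : ℂ) ≠ 0 := by
    intro h
    have : t = 0 := by exact_mod_cast h
    linarith
  have tne1 : ((1 - t : ℝ) : ℂ) ≠ 0 := by
    intro h
    have : 1 - t = 0 := by exact_mod_cast h
    linarith
  have k1 : (fun x => ((1 / t : ℝ) : ℂ) * ⟪ζ, T (π x ζ)⟫_ℂ) ∈ KK V := by
    refine ⟨q1, ?_⟩
    show ((1 / t : ℝ) : ℂ) * ⟪ζ, T (π 1 ζ)⟫_ℂ = 1
    have : (π 1 ζ : E) = ζ := by rw [map_one]; rfl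
    rw [this, htc]
    push_cast
    field_simp
  have k2 : (fun x => ((1 / (1 - t) : ℝ) : ℂ) * ⟪ζ, S (π x ζ)⟫_ℂ) ∈ KK V := by
    refine ⟨q2, ?_⟩
    show ((1 / (1 - t) : ℝ) : ℂ) * ⟪ζ, S (π 1 ζ)⟫_ℂ = 1
    have : (π 1 ζ : E) = ζ := by rw [map_one]; rfl
    rw [this, hSi, htc, hζn, ← Complex.ofReal_sub, ← Complex.ofReal_mul]
    rw [one_div_mul_cancel (by linarith)]
    simp
  have seg : φ ∈ openSegment ℝ (fun x => ((1 / t : ℝ) : ℂ) * ⟪ζ, T (π x ζ)⟫_ℂ)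
      (fun x => ((1 / (1 - t) : ℝ) : ℂ) * ⟪ζ, S (π x ζ)⟫_ℂ) := by
    refine ⟨t, 1 - t, by linarith, by linarith, by ring, ?_⟩
    funext x
    show t • (((1 / t : ℝ) : ℂ) * ⟪ζ, T (π x ζ)⟫_ℂ) +
      (1 - t) • (((1 / (1 - t) : ℝ) : ℂ) * ⟪ζ, S (π x ζ)⟫_ℂ) = φ x
    rw [Complex.real_smul, Complex.real_smul, ← mul_assoc, ← mul_assoc, ← Complex.ofReal_mul,
      ← Complex.ofReal_mul, mul_one_div_cancel (by linarith), mul_one_div_cancel (by linarith),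
      Complex.ofReal_one, one_mul, one_mul, hS, inner_sub_right, hg.coef]
    ring
  have hex := (mem_extremePoints.mp hφ).2 _ k1 _ k2 seg
  have e1 : ∀ x, ⟪ζ, T (π x ζ)⟫_ℂ = (t : ℂ) * ⟪ζ, π x ζ⟫_ℂ := by
    intro x
    have := congrFun hex.1 x
    rw [← hg.coef, ← this]
    push_cast
    field_simp
  refine ⟨(t : ℂ), ext_eq φ π ζ hg T t fun x => ?_⟩
  have : T (π x ζ) - (t : ℂ) • π x ζ = 0 := by
    refine ext_zero φ π ζ hg _ fun y => ?_
    rw [inner_sub_right, inner_smul_right, ← ext_inner, ← ext_inner, ← hc, ← ext_mul, e1, sub_self]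
  exact sub_eq_zero.mp this

/-- self-adjoint operators -/
theorem ext_sa (φ : V → ℂ) (hφ : φ ∈ (KK V).extremePoints ℝ) (π : V →* (E ≃ₗᵢ[ℂ] E)) (ζ : E)
    (hg : IsGNS φ π ζ) (A : E →L[ℂ] E) (hc : ∀ x v, A (π x v) = π x (A v))
    (hsa : ∀ v w, ⟪A v, w⟫_ℂ = ⟪v, A w⟫_ℂ) : ∃ c : ℂ, ∀ v, A v = c • v := by
  have hi : ∀ v, (⟪v, A v⟫_ℂ).im = 0 := by
    intro v
    have h1 : conj ⟪v, A v⟫_ℂ = ⟪v, A v⟫_ℂ := by
      rw [inner_conj_symm, hsa]
    exact Complex.conj_eq_iff_im.mp h1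
  set M : ℝ := ‖A‖ + 1 with hM
  have hM0 : 0 < M := by positivity
  have hb : ∀ v, |(⟪v, A v⟫_ℂ).re| ≤ M * ‖v‖ ^ 2 := by
    intro v
    calc |(⟪v, A v⟫_ℂ).re| ≤ ‖⟪v, A v⟫_ℂ‖ := Complex.abs_re_le_norm _
      _ ≤ ‖v‖ * ‖A v‖ := norm_inner_le_norm _ _
      _ ≤ ‖v‖ * (‖A‖ * ‖v‖) := by gcongr; exact A.le_opNorm v
      _ ≤ M * ‖v‖ ^ 2 := by rw [hM]; nlinarith [sq_nonneg ‖v‖]
  let T : E →L[ℂ] E := ((1 / 2 : ℝ) : ℂ) • ContinuousLinearMap.id ℂ E + ((1 / (4 * M) : ℝ) : ℂ) • A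
  have hT : ∀ v, T v = ((1 / 2 : ℝ) : ℂ) • v + ((1 / (4 * M) : ℝ) : ℂ) • A v := fun v => rfl
  have hTi : ∀ v, ⟪v, T v⟫_ℂ =
      ((1 / 2 * ‖v‖ ^ 2 : ℝ) : ℂ) + ((1 / (4 * M) : ℝ) : ℂ) * ⟪v, A v⟫_ℂ := by
    intro v
    rw [hT, inner_add_right, inner_smul_right, inner_smul_right,
      ext_sq, Complex.ofReal_mul (1 / 2)]
  have hTr : ∀ v, (⟪v, T v⟫_ℂ).re = 1 / 2 * ‖v‖ ^ 2 + 1 / (4 * M) * (⟪v, A v⟫_ℂ).re := by
    intro v
    rw [hTi, Complex.add_re, Complex.ofReal_re, Complex.re_ofReal_mul]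
  have hq : ∀ v, |1 / (4 * M) * (⟪v, A v⟫_ℂ).re| ≤ 1 / 4 * ‖v‖ ^ 2 := by
    intro v
    rw [abs_mul, abs_of_pos (by positivity)]
    calc 1 / (4 * M) * |(⟪v, A v⟫_ℂ).re| ≤ 1 / (4 * M) * (M * ‖v‖ ^ 2) := by
          gcongr; exact hb v
      _ = 1 / 4 * ‖v‖ ^ 2 := by field_simp
  obtain ⟨c, hcT⟩ := ext_main φ hφ π ζ hg T
    (fun x v => by rw [hT, hT, hc, map_add, map_smul, map_smul])
    (fun v => by rw [hTr]; have := (abs_le.mp (hq v)).1; linarith)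
    (fun v => by rw [hTr]; have := (abs_le.mp (hq v)).2; linarith)
    (fun v => by rw [hTi, Complex.add_im, Complex.ofReal_im, Complex.im_ofReal_mul, hi]; ring)
  refine ⟨((4 * M : ℝ) : ℂ) * (c - ((1 / 2 : ℝ) : ℂ)), fun v => ?_⟩
  have h3 := hcT v
  rw [hT] at h3
  have h4 : ((1 / (4 * M) : ℝ) : ℂ) • A v = (c - ((1 / 2 : ℝ) : ℂ)) • v := by
    rw [sub_smul, ← h3]; abel
  rw [mul_smul, ← h4, smul_smul, ← Complex.ofReal_mul, mul_one_div_cancel (by positivity),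
    Complex.ofReal_one, one_smul]

end ext

theorem st_EXT : ST_EXT.{u} := by
  intro V _ φ hφ E _ _ _ π ζ hg T hT
  have had : ∀ v w, ⟪ContinuousLinearMap.adjoint T v, w⟫_ℂ = ⟪v, T w⟫_ℂ :=
    fun v w => ContinuousLinearMap.adjoint_inner_left T w v
  have had' : ∀ v w, ⟪v, ContinuousLinearMap.adjoint T w⟫_ℂ = ⟪T v, w⟫_ℂ :=
    fun v w => ContinuousLinearMap.adjoint_inner_right T v w
  have hadc : ∀ x v, ContinuousLinearMap.adjoint T (π x v) =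
      π x (ContinuousLinearMap.adjoint T v) := by
    intro x v
    refine ext_inner_right ℂ fun w => ?_
    rw [had, ← ext_inner, ← hT, ← had, ext_inner]
  obtain ⟨a, ha⟩ := ext_sa φ hφ π ζ hg (T + ContinuousLinearMap.adjoint T)
    (fun x v => by
      rw [add_apply, add_apply, hT, hadc, map_add])
    (fun v w => by
      rw [add_apply, add_apply, inner_add_left,
        inner_add_right, had, had', add_comm])
  obtain ⟨b, hb⟩ := ext_sa φ hφ π ζ hg (Complex.I • (T - ContinuousLinearMap.adjoint T))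
    (fun x v => by
      rw [smul_apply, smul_apply,
        sub_apply, sub_apply, hT, hadc, map_smul, map_sub])
    (fun v w => by
      rw [smul_apply, smul_apply,
        sub_apply, sub_apply, inner_smul_left,
        inner_smul_right, inner_sub_left, inner_sub_right, had, had', Complex.conj_I]
      ring)
  refine ⟨(1 / 2 : ℂ) * a - (1 / 2 : ℂ) * Complex.I * b, fun v => ?_⟩
  have h1 := ha v
  have h2 := hb v
  rw [add_apply] at h1
  rw [smul_apply, sub_apply] at h2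
  rw [sub_smul, mul_smul, mul_smul, ← h1, ← h2, smul_smul]
  have hI : (1 / 2 : ℂ) * Complex.I * Complex.I = -(1 / 2) := by
    rw [mul_assoc, Complex.I_mul_I]; ring
  rw [hI, smul_add, neg_smul, smul_sub, sub_neg_eq_add]
  have : (1 / 2 : ℂ) • T v + (1 / 2 : ℂ) • T v = T v := by
    rw [← add_smul]; norm_num
  calc T v = (1 / 2 : ℂ) • T v + (1 / 2 : ℂ) • T v := this.symm
    _ = _ := by abel

end Pool.Agent.Helper40.Nil
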